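import Pool.Agent.R617.TreeLevels

/-!
# A substructure-closed class whose counting function is not MC-finite

For a set `A` of natural numbers let `K A` be the class of all structures with one ternary relation
that are isomorphic to a proper induced substructure of one of the structures `(T k; S k)`, or to
`(T k; S k)` itself with `k` in `A`. Here `T k` is the set of the `2 ^ k` leaves of the complete
binary tree of height `k`, and `S k x y z` says that the height of the lowest common ancestor of `x`
and `z` exceeds the one of `x` and `y` by one, or that `y = z` and the lowest common ancestor of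
`x` and `y` is the root. No `(T k; S k)` embeds into another one, and the number of
labelled copies of `(T k; S k)` is odd since its automorphism group contains a Sylow `2`-subgroup
of the symmetric group. Hence the counting functions of `K univ` and `K ∅` have a difference whose
parity is the indicator function of the powers of two, which is not eventually periodic.
-/

set_option autoImplicit false

namespace Pool.Agent.Results.MP_904b92_lc.HereditaryNotMC

open FirstOrder CategoryTheory

/-- The class `K` of structures is closed under isomorphism and under (induced) substructures: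
every structure that embeds into a member of `K` is a member of `K`. -/
def ClosedUnderSubstructures {L : FirstOrder.Language.{0, 0}}
    (K : Set (Bundled.{0} L.Structure)) : Prop :=
  ∀ M ∈ K, ∀ N : Bundled.{0} L.Structure, Nonempty (N ↪[L] M) → N ∈ K

/-- The number of structures with universe `{0, ..., n - 1}` in `K`. -/
noncomputable def Sp {L : FirstOrder.Language.{0, 0}} (K : Set (Bundled.{0} L.Structure))
    (n : ℕ) : ℕ :=
  Nat.card {S : L.Structure (Fin n) // (⟨Fin n, S⟩ : Bundled.{0} L.Structure) ∈ K}

/-- MC-finite sequences: modulo every `m ≥ 1` the sequence satisfies, from some point on, a linear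
recurrence with constant coefficients. -/
def MCFinite (s : ℕ → ℤ) : Prop :=
  ∀ m : ℕ, 1 ≤ m → ∃ r p : ℕ, 1 ≤ r ∧ 1 ≤ p ∧ ∃ α : Fin p → ℤ,
    ∀ n, r ≤ n → s (n + p) ≡ ∑ i : Fin p, α i * s (n + i) [ZMOD m]

/-- One relation symbol, which is ternary. -/
inductive OneTernary : ℕ → Type
  | R : OneTernary 3

/-- The vocabulary with one ternary relation symbol and nothing else. -/
def L3 : FirstOrder.Language.{0, 0} := ⟨fun _ => Empty, OneTernary⟩

open Pool.Agent.R617.MC

/-! ### Structures with one ternary relation -/

theorem cases3 {C : ∀ n, OneTernary n → Prop} (h : C 3 OneTernary.R) (n : ℕ) (r : OneTernary n) :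
    C n r := by
  cases r
  exact h

/-- The structure given by a ternary relation. -/
@[reducible] def str {V : Type} (R : V → V → V → Prop) : L3.Structure V where
  funMap := fun f => (f : Empty).elim
  RelMap := fun {_} r x => match r, x with
    | OneTernary.R, x => R (x 0) (x 1) (x 2)

/-- The ternary relation of a structure. -/
def rel {V : Type} (M : L3.Structure V) : V → V → V → Prop :=
  fun x y z => @FirstOrder.Language.Structure.RelMap L3 V M 3 OneTernary.R ![x, y, z]

theorem rel_str {V : Type} (R : V → V → V → Prop) : rel (str R) = R := rfl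

theorem str_rel {V : Type} (M : L3.Structure V) : str (rel M) = M := by
  rcases M with ⟨fM, rM⟩
  unfold str rel
  congr 1
  · funext n f
    exact (f : Empty).elim
  · funext n r
    refine cases3 (C := fun n r => (fun x : Fin n → V => (match n, r, x with
      | _, OneTernary.R, x => rM OneTernary.R ![x 0, x 1, x 2] : Prop)) = rM r) ?_ n r
    funext x
    have e1 : (![x 0, x 1, x 2] : Fin 3 → V) = x := by
      funext i; fin_cases i <;> rfl
    show rM OneTernary.R ![x 0, x 1, x 2] = rM OneTernary.R x
    rw [e1]

/-- Structures on `V` and ternary relations on `V`. -/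
def strEquiv (V : Type) : L3.Structure V ≃ (V → V → V → Prop) where
  toFun := rel
  invFun := str
  left_inv := str_rel
  right_inv := rel_str

/-- An injective map that transports the ternary relations is an embedding. -/
def toEmb {V W : Type} (M : L3.Structure V) (N : L3.Structure W) (f : V → W)
    (hf : Function.Injective f) (h : rel M = ren f (rel N)) :
    @FirstOrder.Language.Embedding L3 V W M N :=
  @FirstOrder.Language.Embedding.mk L3 V W M N ⟨f, hf⟩
    (fun {_} g _ => (g : Empty).elim)
    (fun {n} r x => by
      revert x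
      refine cases3 (C := fun n r => ∀ x : Fin n → V,
        @FirstOrder.Language.Structure.RelMap L3 W N n r (f ∘ x) ↔
          @FirstOrder.Language.Structure.RelMap L3 V M n r x) ?_ n r
      intro x
      have h1 := congrFun (congrFun (congrFun h (x 0)) (x 1)) (x 2)
      simp only [rel, ren] at h1
      have e1 : (![x 0, x 1, x 2] : Fin 3 → V) = x := by
        funext i; fin_cases i <;> rfl
      have e2 : (![f (x 0), f (x 1), f (x 2)] : Fin 3 → W) = f ∘ x := by
        funext i; fin_cases i <;> rfl
      rw [e1, e2] at h1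
      exact (iff_of_eq h1).symm)

theorem rel_of_emb {V W : Type} {M : L3.Structure V} {N : L3.Structure W}
    (f : @FirstOrder.Language.Embedding L3 V W M N) : rel M = ren f (rel N) := by
  funext x y z
  simp only [rel, ren, eq_iff_iff]
  have h := @FirstOrder.Language.Embedding.map_rel L3 V W M N f 3 OneTernary.R ![x, y, z]
  rw [← h]
  have e : f ∘ ![x, y, z] = ![f x, f y, f z] := by
    funext i; fin_cases i <;> rfl
  rw [e]

/-- The class `K A`: structures with an embedding into some `(T k; S k)`, which is not surjective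
unless `k` is in `A`. -/
def K (A : Set ℕ) : Set (Bundled.{0} L3.Structure) :=
  {M | ∃ (k : ℕ) (f : @FirstOrder.Language.Embedding L3 M (T k) M.str (str (S k))),
    Function.Surjective f → k ∈ A}

theorem K_finite (A : Set ℕ) : ∀ M ∈ K A, Finite M := by
  rintro M ⟨k, f, -⟩
  exact Finite.of_injective f
    (@FirstOrder.Language.Embedding.injective L3 M (T k) M.str (str (S k)) f)

theorem K_closed (A : Set ℕ) : ClosedUnderSubstructures (K A) := by
  rintro M ⟨k, f, hf⟩ N ⟨g⟩
  let : L3.Structure (T k) := str (S k)
  refine ⟨k, @FirstOrder.Language.Embedding.comp L3 N M N.str M.str (T k) (str (S k)) f g,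
    fun hs => hf ?_⟩
  intro y
  obtain ⟨x, hx⟩ := hs y
  exact ⟨g x, hx⟩

/-- The members of `K A` with universe `Fin n`, as ternary relations. -/
def KR (A : Set ℕ) (n : ℕ) : Set (Fin n → Fin n → Fin n → Prop) :=
  {R | ∃ (k : ℕ) (f : Fin n → T k), Function.Injective f ∧ R = ren f (S k) ∧
    (Function.Surjective f → k ∈ A)}

theorem Sp_K (A : Set ℕ) (n : ℕ) : Sp (K A) n = (KR A n).ncard := by
  unfold Sp
  rw [← Nat.card_coe_set_eq]
  refine Nat.card_congr (Equiv.subtypeEquiv (strEquiv (Fin n)) fun M => ?_)
  constructor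
  · rintro ⟨k, f, hf⟩
    exact ⟨k, f, @FirstOrder.Language.Embedding.injective L3 (Fin n) (T k) M (str (S k)) f,
      rel_of_emb f, hf⟩
  · rintro ⟨k, f, hf, h, hs⟩
    exact ⟨k, toEmb M (str (S k)) f hf h, hs⟩

/-- Labelled copies of `(T k; S k)`. -/
def X (n : ℕ) : Set (Fin n → Fin n → Fin n → Prop) :=
  {R | ∃ (k : ℕ) (f : Fin n → T k), Function.Bijective f ∧ R = ren f (S k)}

theorem card_of_bij {n k : ℕ} {f : Fin n → T k} (hf : Function.Bijective f) : n = 2 ^ k := by
  have := Nat.card_congr (Equiv.ofBijective f hf)
  rwa [card_T, Nat.card_eq_fintype_card, Fintype.card_fin] at this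

theorem disj (n : ℕ) : Disjoint (KR ∅ n) (X n) := by
  rw [Set.disjoint_left]
  rintro R ⟨k, f, hf, h, hs⟩ ⟨l, g, hg, h'⟩
  -- `f ∘ g⁻¹` embeds `T l` into `T k`
  let e := Equiv.ofBijective g hg
  have hinj : Function.Injective (f ∘ e.symm) := hf.comp e.symm.injective
  have hlk : l = k := by
    refine height_eq hinj fun x y z hxyz => ?_
    have h1 : R (e.symm x) (e.symm y) (e.symm z) := by
      rw [h']
      show S l (g (e.symm x)) (g (e.symm y)) (g (e.symm z))
      have : ∀ v, g (e.symm v) = v := fun v => e.apply_symm_apply v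
      rwa [this, this, this]
    rw [h] at h1
    exact h1
  subst hlk
  have h2 : Function.Surjective (f ∘ e.symm) := Finite.injective_iff_surjective.1 hinj
  exact hs fun y => by
    obtain ⟨x, hx⟩ := h2 y
    exact ⟨e.symm x, hx⟩

theorem union (n : ℕ) : KR Set.univ n = KR ∅ n ∪ X n := by
  ext R
  constructor
  · rintro ⟨k, f, hf, h, -⟩
    by_cases hs : Function.Surjective f
    · exact Or.inr ⟨k, f, ⟨hf, hs⟩, h⟩
    · exact Or.inl ⟨k, f, hf, h, fun h => absurd h hs⟩
  · rintro (⟨k, f, hf, h, -⟩ | ⟨k, f, hf, h⟩)
    · exact ⟨k, f, hf, h, fun _ => trivial⟩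
    · exact ⟨k, f, hf.1, h, fun _ => trivial⟩

theorem ncard_univ (n : ℕ) : (KR Set.univ n).ncard = (KR ∅ n).ncard + (X n).ncard := by
  rw [union, Set.ncard_union_eq (disj n) (Set.toFinite _) (Set.toFinite _)]

theorem X_empty {n : ℕ} (h : ∀ k, n ≠ 2 ^ k) : (X n).ncard = 0 := by
  have : X n = ∅ := by
    ext R
    simp only [Set.mem_empty_iff_false, iff_false]
    rintro ⟨k, f, hf, -⟩
    exact h k (card_of_bij hf)
  rw [this, Set.ncard_empty]

theorem X_odd (k : ℕ) : Odd (X (2 ^ k)).ncard := by
  have e : Fin (2 ^ k) ≃ T k :=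
    (finCongr (by rw [← card_T k, Nat.card_eq_fintype_card])).trans
      (Fintype.equivFin (T k)).symm
  have himg : X (2 ^ k) = ren e '' (MulAction.orbit (Equiv.Perm (T k)) (S k)) := by
    ext R
    constructor
    · rintro ⟨l, f, hf, rfl⟩
      have hl : l = k := Nat.pow_right_injective (le_refl 2) (card_of_bij hf).symm
      subst hl
      let σ : Equiv.Perm (T l) := e.symm.trans (Equiv.ofBijective f hf)
      refine ⟨ren σ (S l), ⟨σ⁻¹, ?_⟩, ?_⟩
      · show σ⁻¹ • S l = _
        rw [smul_def', inv_inv]
      · funext x y z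
        have : ∀ v, σ (e v) = f v := fun v => by
          show f (e.symm (e v)) = f v
          rw [e.symm_apply_apply]
        simp only [ren, this]
    · rintro ⟨_, ⟨σ, rfl⟩, rfl⟩
      refine ⟨k, (σ⁻¹ : Equiv.Perm (T k)) ∘ e, (σ⁻¹).bijective.comp e.bijective, ?_⟩
      show ren e (σ • S k) = _
      rw [smul_def']
      rfl
  have hinj : Function.Injective (ren e : (T k → T k → T k → Prop) → _) := by
    intro R R' h
    funext x y z
    have h1 := congrFun (congrFun (congrFun h (e.symm x)) (e.symm y)) (e.symm z)
    simpa only [ren, e.apply_symm_apply] using h1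
  rw [himg, Set.ncard_image_of_injective _ hinj, ← Nat.card_coe_set_eq]
  exact odd_orbit k

/-! ### Periodicity -/

theorem periodic_of_rec {s : ℕ → ZMod 2} {r p : ℕ} {α : Fin p → ZMod 2}
    (h : ∀ n, r ≤ n → s (n + p) = ∑ i : Fin p, α i * s (n + i)) :
    ∃ N P : ℕ, 1 ≤ P ∧ ∀ n, N ≤ n → s (n + P) = s n := by
  obtain ⟨a, b, hab, hst⟩ := Finite.exists_ne_map_eq_of_infinite
    (fun n : ℕ => (fun i : Fin p => s (r + n + i)))
  have key : ∀ a b : ℕ, a < b → (fun i : Fin p => s (r + a + i)) =
      (fun i : Fin p => s (r + b + i)) →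
      ∃ N P : ℕ, 1 ≤ P ∧ ∀ n, N ≤ n → s (n + P) = s n := by
    intro a b hab hst
    have h1 : ∀ t, s (r + a + t) = s (r + b + t) := by
      intro t
      induction t using Nat.strong_induction_on with
      | _ t ih =>
        rcases Nat.lt_or_ge t p with ht | ht
        · exact congrFun hst ⟨t, ht⟩
        · obtain ⟨u, rfl⟩ := Nat.exists_eq_add_of_le ht
          have e1 := h (r + a + u) (by omega)
          have e2 := h (r + b + u) (by omega)
          rw [show r + a + (p + u) = r + a + u + p by omega,
            show r + b + (p + u) = r + b + u + p by omega, e1, e2]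
          refine Finset.sum_congr rfl fun i _ => ?_
          rw [add_assoc (r + a), add_assoc (r + b), ih (u + i) (by have := i.2; omega)]
    refine ⟨r + a, b - a, by omega, fun n hn => ?_⟩
    obtain ⟨t, rfl⟩ := Nat.exists_eq_add_of_le hn
    rw [h1 t]
    congr 1
    omega
  rcases Nat.lt_or_gt_of_ne hab with hlt | hlt
  · exact key a b hlt hst
  · exact key b a hlt hst.symm

theorem mc_periodic {s : ℕ → ℕ} (h : MCFinite fun n => (s n : ℤ)) :
    ∃ N P : ℕ, 1 ≤ P ∧ ∀ n, N ≤ n → (s (n + P) : ZMod 2) = s n := by
  obtain ⟨r, p, -, -, α, hα⟩ := h 2 (by norm_num)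
  refine periodic_of_rec (s := fun n => (s n : ZMod 2)) (r := r) (p := p)
    (α := fun i => (α i : ZMod 2)) fun n hn => ?_
  have h1 := (ZMod.intCast_eq_intCast_iff _ _ 2).2 (hα n hn)
  push_cast at h1
  exact h1

theorem iterate {s : ℕ → ZMod 2} {N P : ℕ} (h : ∀ n, N ≤ n → s (n + P) = s n) (q : ℕ) :
    ∀ n, N ≤ n → s (n + P * q) = s n := by
  induction q with
  | zero => intro n _; simp
  | succ q ih =>
    intro n hn
    rw [Nat.mul_succ, ← add_assoc, h _ (by omega), ih n hn]

/-- **Theorem.** There is a class of finite structures in the vocabulary with one ternary relation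
symbol which is closed under isomorphism and induced substructures, and whose counting function
(the number of members with universe `{0, ..., n - 1}`) is not MC-finite. -/
theorem result : ∃ K : Set (Bundled.{0} L3.Structure),
    (∀ M ∈ K, Finite M) ∧ ClosedUnderSubstructures K ∧ ¬ MCFinite (fun n => (Sp K n : ℤ)) := by
  by_contra hcon
  push Not at hcon
  obtain ⟨N1, P1, hP1, h1⟩ := mc_periodic (hcon (K Set.univ) (K_finite _) (K_closed _))
  obtain ⟨N2, P2, hP2, h2⟩ := mc_periodic (hcon (K ∅) (K_finite _) (K_closed _))
  -- a large power of two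
  obtain ⟨k, hk⟩ : ∃ k, N1 + N2 + P1 * P2 < 2 ^ k := ⟨_, Nat.lt_two_pow_self⟩
  have hP : 1 ≤ P1 * P2 := Nat.mul_pos hP1 hP2
  have e1 := iterate (s := fun n => (Sp (K Set.univ) n : ZMod 2)) h1 P2 (2 ^ k) (by omega)
  have e2 := iterate (s := fun n => (Sp (K ∅) n : ZMod 2)) h2 P1 (2 ^ k) (by omega)
  rw [mul_comm P2 P1] at e2
  simp only [Sp_K] at e1 e2
  rw [ncard_univ, ncard_univ] at e1
  have e3 : (X (2 ^ k + P1 * P2)).ncard = 0 := by
    refine X_empty fun l hl => ?_
    have h3 : 2 ^ k < 2 ^ l := by omega
    have h4 : 2 ^ l < 2 ^ (k + 1) := by rw [pow_succ]; omega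
    have h5 := (Nat.pow_lt_pow_iff_right (a := 2) (by norm_num)).1 h3
    have h6 := (Nat.pow_lt_pow_iff_right (a := 2) (by norm_num)).1 h4
    omega
  rw [e3] at e1
  push_cast at e1 e2
  rw [e2, add_zero] at e1
  have e4 : ((X (2 ^ k)).ncard : ZMod 2) = 0 := by
    have := e1
    exact (left_eq_add.1 this)
  rw [ZMod.natCast_eq_zero_iff_even] at e4
  exact (Nat.not_even_iff_odd.2 (X_odd k)) e4

end Pool.Agent.Results.MP_904b92_lc.HereditaryNotMC
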